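import Pool.Agent.GeoZ5.Final

/-!
# The value `|σ| + 12` is not always attained for divisible classes of `ℤ⁵`

There is a triangulated closed oriented connected 4-manifold with fundamental group `ℤ⁵`, whose
fundamental class is mapped to `2 x_1 ∩ [T]`, with signature `-4` and Euler characteristic `14`,
which is less than `|-4| + 12 = 16`.
-/

namespace Pool.Agent.Results.MP_3051d3_gt.ClassTwo

open Pool.Agent.GeoZ5

theorem result : ∃ (Φ : Cplx) (o : Finset ℕ → ℤ) (p : ℕ) (x : Fin 5 → ℕ → ℕ → ℤ),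
    IsModel Φ o p x 2 ∧ signature Φ o = -4 ∧ eulerChar Φ = 14 ∧
      eulerChar Φ < |signature Φ o| + 12 := by
  obtain ⟨Φ, o, p, x, h1, h2, h3⟩ := exists_model
  exact ⟨Φ, o, p, x, h1, h2, h3, by rw [h2, h3]; norm_num⟩

end Pool.Agent.Results.MP_3051d3_gt.ClassTwo
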